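import Pool.Agent.Lib.MP_28303a_al.NT.EX.Defs
import Pool.Agent.Lib.MP_28303a_al.NT.H80.Perf
import Pool.Agent.Lib.MP_28303a_al.NT.H91.Kgen

/-! # Row VAL: the value of the invariant at a vertex -/

set_option autoImplicit false
set_option linter.unusedSectionVars false
set_option linter.unusedVariables false

namespace Pool.Agent.NegK.NT.EX70

universe u

open CategoryTheory Limits Opposite Pretriangulated Idempotents
open Pool.Agent.NegK.TW Pool.Agent.NegK.NT.ER Pool.Agent.NegK.NT.EX Pool.Agent.NegK.NT.EX91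

section

variable {k : Type u} [Ring k] {Γ : Type u} [Group Γ] {B C : Type u} [MulAction Γ B]
  [MulAction Γ C] {P : Pre Γ B} {Q : Pre Γ C}

/-- The extension of a functor to located projective modules. -/
noncomputable def kF (H : Loc k P ⥤ Loc k Q) : KL k P ⥤ KL k Q where
  obj X := ⟨H.obj X.X, H.map X.p, by rw [← Functor.map_comp, X.idem]⟩
  map {X Y} f := ⟨H.map f.f, by
    show H.map X.p ≫ H.map f.f ≫ H.map Y.p = H.map f.f
    rw [← H.map_comp, ← H.map_comp, f.comm]⟩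
  map_id X := rfl
  map_comp f g := Karoubi.hom_ext _ _ (H.map_comp _ _)

instance (H : Loc k P ⥤ Loc k Q) [H.Additive] : (kF H).Additive where
  map_add {X Y f g} := Karoubi.hom_ext _ _ (H.map_add)

/-- The functors `tk` commute with the functors. -/
noncomputable def kTk (H : Loc k P ⥤ Loc k Q) :
    H ⋙ toKaroubi (Loc k Q) ≅ toKaroubi (Loc k P) ⋙ kF H :=
  NatIso.ofComponents (fun A =>
    { hom := ⟨𝟙 (H.obj A), by
        show 𝟙 (H.obj A) ≫ 𝟙 (H.obj A) ≫ H.map (𝟙 A) = 𝟙 (H.obj A)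
        rw [H.map_id, Category.comp_id, Category.comp_id]⟩
      inv := ⟨𝟙 (H.obj A), by
        show H.map (𝟙 A) ≫ 𝟙 (H.obj A) ≫ 𝟙 (H.obj A) = 𝟙 (H.obj A)
        rw [H.map_id, Category.comp_id, Category.comp_id]⟩
      hom_inv_id := Karoubi.hom_ext _ _ (Category.comp_id (𝟙 (H.obj A)))
      inv_hom_id := Karoubi.hom_ext _ _ (by
        show 𝟙 (H.obj A) ≫ 𝟙 (H.obj A) = H.map (𝟙 A)
        rw [H.map_id, Category.comp_id]) }) (by
    intro A A' f
    refine Karoubi.hom_ext _ _ ?_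
    show H.map f ≫ 𝟙 (H.obj A') = 𝟙 (H.obj A) ≫ H.map f
    rw [Category.comp_id, Category.id_comp])

/-- The functors on the homotopy categories. -/
noncomputable def kSq (H : Loc k P ⥤ Loc k Q) [H.Additive] :
    hk H ⋙ tk k Q ≅ tk k P ⋙ (kF H).mapHomotopyCategory (ComplexShape.up ℤ) :=
  Functor.mapHomotopyCategoryCompIso (kTk H) (ComplexShape.up ℤ) ≪≫
    (Functor.mapHomotopyCategoryCompIso (Iso.refl (toKaroubi (Loc k P) ⋙ kF H))
      (ComplexShape.up ℤ)).symm

/-- Functors and the complexes with one term. -/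
theorem kF_sk (H : Loc k P ⥤ Loc k Q) [H.Additive] (Y : KL k P) :
    Nonempty (((kF H).mapHomotopyCategory (ComplexShape.up ℤ)).obj (sk Y) ≅
      sk ((kF H).obj Y)) :=
  ⟨((Functor.isoWhiskerRight
    (HomologicalComplex.singleMapHomologicalComplex (kF H) (ComplexShape.up ℤ) 0)
    (HomotopyCategory.quotient (KL k Q) (ComplexShape.up ℤ))).app Y)⟩

theorem hk_sk (H : Loc k P ⥤ Loc k Q) [H.Additive] {X : KK k P} {Y : KL k P}
    (h : Nonempty ((tk k P).obj X ≅ sk Y)) :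
    Nonempty ((tk k Q).obj ((hk H).obj X) ≅ sk ((kF H).obj Y)) := by
  obtain ⟨e⟩ := h
  obtain ⟨e'⟩ := kF_sk H Y
  exact ⟨(kSq H).app X ≪≫ ((kF H).mapHomotopyCategory (ComplexShape.up ℤ)).mapIso e ≪≫ e'⟩

/-- Located projective modules without basis. -/
theorem isZero_kl (Y : KL k P) (h : IsEmpty Y.X.ι) : IsZero Y := by
  rw [IsZero.iff_id_eq_zero]
  exact Karoubi.hom_ext _ _ (Loc.ext_basis fun i => h.elim i)

/-- The complex with one term, up to isomorphism. -/
theorem sgl (Y : KL k P) (hY : Finite Y.X.ι) :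
    ∃ E : CochainComplex (KL k P) ℤ, FinK E ∧ Nonempty (E.X 0 ≅ Y) ∧
      (∀ n, n ≠ 0 → IsZero (E.X n)) ∧
      Nonempty ((HomologicalComplex.single (KL k P) (ComplexShape.up ℤ) 0).obj Y ≅ E) := by
  classical
  let C := (HomologicalComplex.single (KL k P) (ComplexShape.up ℤ) 0).obj Y
  let Z : KL k P := (toKaroubi (Loc k P)).obj (H91.eL k P)
  let A : ℤ → KL k P := fun n => if n = 0 then Y else Z
  have h0 : A 0 = Y := if_pos rfl
  have h1 : ∀ n, n ≠ 0 → A n = Z := fun n hn => if_neg hn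
  have e : ∀ n, Nonempty (C.X n ≅ A n) := by
    intro n
    by_cases hn : n = 0
    · subst hn
      rw [h0]
      exact ⟨HomologicalComplex.singleObjXSelf (ComplexShape.up ℤ) 0 Y⟩
    · rw [h1 n hn]
      exact ⟨(HomologicalComplex.isZero_single_obj_X (ComplexShape.up ℤ) 0 Y n hn).iso
        (H91.isZero_eK k P)⟩
  have e := fun n => (e n).some
  have hZ : ∀ n, n ≠ 0 → IsZero (A n) := fun n hn => by
    rw [h1 n hn]
    exact H91.isZero_eK k P
  refine ⟨trc C A e, ⟨fun n => ?_, 0, 0, fun n hn => ?_⟩, ⟨?_⟩, hZ, ⟨trcIso C A e⟩⟩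
  · change Finite (A n).X.ι
    by_cases hn : n = 0
    · subst hn
      rw [h0]
      exact hY
    · rw [h1 n hn]
      exact inferInstanceAs (Finite PEmpty)
  · refine hZ n ?_
    rcases hn with h | h
    · exact ne_of_lt h
    · exact ne_of_gt h
  · change A 0 ≅ Y
    rw [h0]

/-- The values of the Euler characteristic on the complexes with one term. -/
theorem eu_sk {G : Type u} [AddCommGroup G] {κ : H65.ClF (KL k P) G} {eu : KK k P → G}
    (hS : ∀ Y, κ.S Y ↔ H65.EF Y) (he : Eud κ eu) {X : KK k P} (hX : Per X) (Y : KL k P)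
    (hY : Finite Y.X.ι) (h : Nonempty ((tk k P).obj X ≅ sk Y)) : eu X = κ.cl Y := by
  obtain ⟨E, hE, ⟨e0⟩, hz, ⟨e⟩⟩ := sgl Y hY
  obtain ⟨φ⟩ := h
  have hSE : ∀ n, κ.S (E.X n) := fun n => (hS _).2 ⟨_, hE.fin n, ⟨Iso.refl _⟩⟩
  rw [he.val X E hX hE ⟨φ ≪≫ (HomotopyCategory.quotient _ _).mapIso e⟩]
  unfold H65.ClF.ch
  rw [finsum_eq_single _ (0 : ℤ)]
  · rw [Int.negOnePow_zero, Units.val_one, one_smul]
    exact (κ.iso e0 (hSE 0)).2
  · intro n hn
    rw [κ.cl_zero (hz n hn) (hSE n), smul_zero]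

/-- Isomorphisms of located projective modules. -/
noncomputable def kiso {X Y : KL k P} (φ : X.X ≅ Y.X) (h : φ.hom ≫ Y.p = X.p ≫ φ.hom) :
    X ≅ Y where
  hom := ⟨X.p ≫ φ.hom, by
    rw [Category.assoc, h, ← Category.assoc X.p X.p, X.idem, ← Category.assoc, X.idem]⟩
  inv := ⟨Y.p ≫ φ.inv, by
    have h' : φ.inv ≫ X.p = Y.p ≫ φ.inv := by
      rw [Iso.inv_comp_eq, ← Category.assoc, h, Category.assoc, φ.hom_inv_id, Category.comp_id]
    rw [Category.assoc, h', ← Category.assoc Y.p Y.p, Y.idem, ← Category.assoc, Y.idem]⟩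
  hom_inv_id := Karoubi.hom_ext _ _ (by
    show (X.p ≫ φ.hom) ≫ Y.p ≫ φ.inv = X.p
    rw [Category.assoc, ← Category.assoc φ.hom, h, Category.assoc, φ.hom_inv_id,
      Category.comp_id, X.idem])
  inv_hom_id := Karoubi.hom_ext _ _ (by
    have h' : φ.inv ≫ X.p = Y.p ≫ φ.inv := by
      rw [Iso.inv_comp_eq, ← Category.assoc, h, Category.assoc, φ.hom_inv_id, Category.comp_id]
    show (Y.p ≫ φ.inv) ≫ X.p ≫ φ.hom = Y.p
    rw [Category.assoc, ← Category.assoc φ.inv, h', Category.assoc, φ.inv_hom_id,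
      Category.comp_id, Y.idem])

end

section

variable {Γ : Type u} [Group Γ] {k : Type u} [Ring k] {T : Sys Γ} {j : Fin T.m}
  {Z : Type u} [MulAction Γ Z]

theorem keep_gL {S : Finset (Fin T.m)} (hj : j ∈ S) (l : Z → T.B j)
    (hl : ∀ (g : Γ) (z : Z), l (g • z) = g • l z) (hf : ∀ c : T.B j, {z | l z ≤ c}.Finite) :
    KeepFin ((gL hj l hl).F (k := k)) where
  fin A hA := by
    have h1 : ∀ i : A.ι, Finite {z : Z // l z ≤ A.loc i j} := fun i => (hf (A.loc i j)).to_subtype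
    exact inferInstanceAs (Finite (Σ i : A.ι, {z : Z // l z ≤ A.loc i j}))
  emp A hA := ⟨fun p => hA.false p.1⟩

/-- The object at a vertex. -/
theorem gL_vertex (l : Z → T.B j) (hl : ∀ (g : Γ) (z : Z), l (g • z) = g • l z) (v : Z)
    (U : T.Box) (hv : l v ≤ U j) (hv' : ∀ z, l z ≤ U j → z = v)
    (hH : ∀ g ∈ MulAction.stabilizer Γ v, (T.P {j}).le U (g • U))
    (q : Idem (MonoidAlgebra k (MulAction.stabilizer Γ v))) :
    Nonempty ((kF ((gL (Finset.mem_singleton_self j) l hl).F (k := k))).obj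
      (atH (T.P {j}) (MulAction.stabilizer Γ v) U hH q) ≅ atx v q) := by
  classical
  let c := gL (Finset.mem_singleton_self j) l hl
  let A : Loc k (T.P {j}) := H65.At k (T.P {j}) q.n U
  let A' : Loc k (dis Γ Z) := H65.At k (dis Γ Z) q.n v
  let β : A'.ι → (c.ob A).ι := fun i => ⟨i, v, hv⟩
  let a : c.ob A ⟶ A' := Loc.par (A := c.ob A) (A' := A') (fun p => some p.1) (fun p i h => by
    show p.2.1 = v
    exact hv' _ p.2.2)
  let b : A' ⟶ c.ob A := Loc.par (A := A') (A' := c.ob A) (fun i => some (β i))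
    (fun i p h => by
      obtain rfl := Option.some.inj h
      rfl)
  have ha : ∀ p : (c.ob A).ι, Loc.lin a (Finsupp.single p 1) = Finsupp.single p.1 1 := fun p =>
    Loc.par_some (A := c.ob A) (A' := A') _ _ rfl
  have hb : ∀ i : A'.ι, Loc.lin b (Finsupp.single i 1) = Finsupp.single (β i) 1 := fun i =>
    Loc.par_some (A := A') (A' := c.ob A) _ _ rfl
  have hβ : ∀ p : (c.ob A).ι, β p.1 = p := fun p => by
    obtain ⟨i, z, hz⟩ := p
    obtain rfl := hv' z hz
    rfl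
  have hab : a ≫ b = 𝟙 _ := Loc.ext_basis (A := c.ob A) (A' := c.ob A) fun p => by
    rw [Loc.lin_comp, LinearMap.comp_apply, ha, hb, hβ]
    rfl
  have hba : b ≫ a = 𝟙 _ := Loc.ext_basis (A := A') (A' := A') fun i => by
    rw [Loc.lin_comp, LinearMap.comp_apply, hb, ha]
    rfl
  refine ⟨(kiso (X := atx v q)
    (Y := (kF (c.F (k := k))).obj (atH (T.P {j}) (MulAction.stabilizer Γ v) U hH q))
    (⟨b, a, hba, hab⟩ : A' ≅ c.ob A) ?_).symm⟩
  show b ≫ c.mp (atm (T.P {j}) (MulAction.stabilizer Γ v) U hH q.e) =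
    atm (dis Γ Z) (MulAction.stabilizer Γ v) v
      (fun _ hg => (MulAction.mem_stabilizer_iff.1 hg).symm) q.e ≫ b
  refine Loc.ext_basis (A := A') (A' := c.ob A) fun i => ?_
  rw [Loc.lin_comp, Loc.lin_comp, LinearMap.comp_apply, LinearMap.comp_apply, hb, c.lin_mp]
  have hx : Loc.lin (atm (dis Γ Z) (MulAction.stabilizer Γ v) v
      (fun _ hg => (MulAction.mem_stabilizer_iff.1 hg).symm) q.e) (Finsupp.single i 1) =
      Loc.lin (atm (T.P {j}) (MulAction.stabilizer Γ v) U hH q.e) (Finsupp.single i 1) :=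
    Finsupp.ext fun i' => by rw [atm_apply, atm_apply]
  rw [hx]
  refine Crs.eq_of_terms (c.tz A v) (Loc.lin b).toAddMonoidHom _ fun i' g hg => ?_
  have hgv : g ∈ MulAction.stabilizer Γ v := by
    refine mem_of_mdr (q.e i.down i'.down) ?_
    rwa [← atm_apply (T.P {j}) (MulAction.stabilizer Γ v) U hH q.e i i']
  have hgv' : g⁻¹ • v = v := MulAction.mem_stabilizer_iff.1 (inv_mem hgv)
  have hS : c.S (A.loc i') (g⁻¹ • v) := by
    rw [hgv']
    exact hv
  generalize (Loc.lin (atm (T.P {j}) (MulAction.stabilizer Γ v) U hH q.e)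
    (Finsupp.single i 1) i').coeff g = r
  rw [c.tz_pos A hS]
  have h1 : Finsupp.single i' (MonoidAlgebra.single g r) =
      (MonoidAlgebra.single g r : MonoidAlgebra k Γ) •
        (Finsupp.single i' (1 : MonoidAlgebra k Γ)) := by
    rw [Finsupp.smul_single, smul_eq_mul, mul_one]
  show _ = Loc.lin b (Finsupp.single i' (MonoidAlgebra.single g r))
  rw [h1, map_smul, hb, Finsupp.smul_single, smul_eq_mul, mul_one]
  congr 1
  exact Sigma.ext rfl (heq_of_eq (Subtype.ext hgv'))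

end

/-- **Row VAL.** -/
theorem valS : ValStatement.{u} := by
  intro Γ _ T D j _ _ K k _ G _ Φ κ eu hκ he v U hU hH q X hX h
  let HV := (gL (Finset.mem_singleton_self j) (D.vt j) K.vt_smul).F (k := k)
  let HE := (gL (Finset.mem_singleton_self j) (D.ed j) K.ed_smul).F (k := k)
  let Y := atH (T.P {j}) (MulAction.stabilizer Γ v) U hH q
  have hY : Finite Y.X.ι := inferInstanceAs (Finite (ULift.{u} (Fin q.n)))
  have kV : KeepFin HV := keep_gL _ _ _ fun c => (K.fin j c).preimage K.vt_inj.injOn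
  have kE : KeepFin HE := keep_gL _ _ _ fun c => (K.fin j c).preimage K.ed_inj.injOn
  have e1 : eu ((hk HV).obj X) = Φ.φ v (K0.cls q) := by
    have h1 := eu_sk hκ.S he (per_hk HV kV hX) ((kF HV).obj Y) (kV.fin _ hY) (hk_sk HV h)
    obtain ⟨φ⟩ := gL_vertex (k := k) (D.vt j) K.vt_smul v U hU.ge (fun z hz => by
      rw [hU] at hz
      exact K.vt_inj (K.vt_min v _ hz)) hH q
    rw [h1, (κ.iso φ ((hκ.S _).2 ⟨_, kV.fin _ hY, ⟨Iso.refl _⟩⟩)).2]
    exact hκ.val v q
  have e2 : eu ((hk (Loc.push (wm (D.s j) K.s_smul))).obj ((hk HE).obj X)) = 0 := by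
    have hemp : IsEmpty ((kF HE).obj Y).X.ι := ⟨fun p => by
      have h1 : D.ed j p.2.1 ≤ U j := p.2.2
      rw [hU] at h1
      exact K.ed_vt _ _ (K.vt_min v _ h1)⟩
    have hfin : Finite ((kF (Loc.push (wm (D.s j) K.s_smul))).obj ((kF HE).obj Y)).X.ι :=
      kE.fin _ hY
    have h1 := eu_sk hκ.S he (per_push (wm (D.s j) K.s_smul) (per_hk HE kE hX))
      ((kF (Loc.push (wm (D.s j) K.s_smul))).obj ((kF HE).obj Y)) hfin
      (hk_sk (Loc.push (wm (D.s j) K.s_smul)) (hk_sk HE h))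
    rw [h1]
    exact κ.cl_zero (isZero_kl _ hemp) ((hκ.S _).2 ⟨_, hfin, ⟨Iso.refl _⟩⟩)
  show eu ((hk HV).obj X) - eu ((hk (Loc.push (wm (D.s j) K.s_smul))).obj ((hk HE).obj X)) = _
  rw [e1, e2, sub_zero]

end Pool.Agent.NegK.NT.EX70
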